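import Pool.Agent.Helper57.QZ.Stmts

/-! Row PR1 of sheet QZ (MP_818aa8_nt): second moments and means after tilting. -/

set_option autoImplicit false

namespace Pool.Agent.Helper57.QZ

open MeasureTheory Set Filter Topology

theorem pr1_int {f : ℝ → ℝ} (hf : Continuous f) (C : ℝ) (h : ∀ x, |f x| ≤ C) :
    Integrable f circ :=
  Integrable.of_bound hf.aestronglyMeasurable C (Eventually.of_forall fun x => h x)

theorem pr1_intT {y : ℕ} {f : (Pr y → ℝ) → ℝ} (hf : Continuous f) (C : ℝ) (h : ∀ x, |f x| ≤ C) :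
    Integrable f (tor y) :=
  Integrable.of_bound hf.aestronglyMeasurable C (Eventually.of_forall fun x => h x)

theorem pr1_e (x φ : ℝ) : |Real.exp (x * Real.cos φ)| ≤ Real.exp |x| := by
  rw [abs_of_pos (Real.exp_pos _)]
  refine Real.exp_le_exp.2 ((le_abs_self _).trans ?_)
  rw [abs_mul]
  exact mul_le_of_le_one_right (abs_nonneg _) (Real.abs_cos_le_one φ)

theorem pr1_i0 (x : ℝ) : Integrable (fun φ => Real.exp (x * Real.cos φ)) circ :=
  pr1_int (by fun_prop) (Real.exp |x|) (pr1_e x)

theorem pr1_i1 (x : ℝ) : Integrable (fun φ => Real.cos φ * Real.exp (x * Real.cos φ)) circ := by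
  refine pr1_int (by fun_prop) (Real.exp |x|) fun φ => ?_
  rw [abs_mul]
  calc |Real.cos φ| * |Real.exp (x * Real.cos φ)| ≤ 1 * Real.exp |x| :=
        mul_le_mul (Real.abs_cos_le_one φ) (pr1_e x φ) (abs_nonneg _) zero_le_one
    _ = Real.exp |x| := one_mul _

theorem pr1_i2 (x : ℝ) :
    Integrable (fun φ => Real.cos φ ^ 2 * Real.exp (x * Real.cos φ)) circ := by
  refine pr1_int (by fun_prop) (Real.exp |x|) fun φ => ?_
  rw [abs_mul, abs_pow]
  calc |Real.cos φ| ^ 2 * |Real.exp (x * Real.cos φ)| ≤ 1 * Real.exp |x| :=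
        mul_le_mul (pow_le_one₀ (abs_nonneg _) (Real.abs_cos_le_one φ)) (pr1_e x φ)
          (abs_nonneg _) zero_le_one
    _ = Real.exp |x| := one_mul _

theorem pr1_pos (x : ℝ) : 0 < I0 x := integral_exp_pos (pr1_i0 x)

theorem pr1_m1 (x : ℝ) : ∫ φ, Real.cos φ * Real.exp (x * Real.cos φ) ∂circ = rr x * I0 x := by
  rw [rr, div_mul_cancel₀ _ (pr1_pos x).ne']

theorem pr1_m2 (x : ℝ) : ∫ φ, Real.cos φ ^ 2 * Real.exp (x * Real.cos φ) ∂circ =
    (vv x + rr x ^ 2) * I0 x := by
  rw [vv, sub_add_cancel, div_mul_cancel₀ _ (pr1_pos x).ne']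

theorem pr1_c1 (x : ℝ) :
    ∫ φ, (Real.cos φ - rr x) * Real.exp (x * Real.cos φ) ∂circ = 0 := by
  have h : ∀ φ, (Real.cos φ - rr x) * Real.exp (x * Real.cos φ) =
      Real.cos φ * Real.exp (x * Real.cos φ) - rr x * Real.exp (x * Real.cos φ) := fun φ => by ring
  simp only [h]
  rw [integral_sub (pr1_i1 x) ((pr1_i0 x).const_mul _), integral_const_mul, pr1_m1]
  rw [← I0, sub_self]

theorem pr1_c2 (x : ℝ) :
    ∫ φ, (Real.cos φ - rr x) ^ 2 * Real.exp (x * Real.cos φ) ∂circ = vv x * I0 x := by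
  have h : ∀ φ, (Real.cos φ - rr x) ^ 2 * Real.exp (x * Real.cos φ) =
      Real.cos φ ^ 2 * Real.exp (x * Real.cos φ) -
        2 * rr x * (Real.cos φ * Real.exp (x * Real.cos φ)) +
        rr x ^ 2 * Real.exp (x * Real.cos φ) := fun φ => by ring
  simp only [h]
  have i1 := (pr1_i1 x).const_mul (2 * rr x)
  have i0 := (pr1_i0 x).const_mul (rr x ^ 2)
  have i3 : Integrable (fun φ => Real.cos φ ^ 2 * Real.exp (x * Real.cos φ) -
      2 * rr x * (Real.cos φ * Real.exp (x * Real.cos φ))) circ := (pr1_i2 x).sub i1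
  rw [integral_add i3 i0, integral_sub (pr1_i2 x) i1, integral_const_mul, integral_const_mul,
    pr1_m1, pr1_m2, ← I0]
  ring

theorem pr1_c3 (x : ℝ) :
    ∫ φ, (1 - Real.cos φ) * Real.exp (x * Real.cos φ) ∂circ = (1 - rr x) * I0 x := by
  have h : ∀ φ, (1 - Real.cos φ) * Real.exp (x * Real.cos φ) =
      Real.exp (x * Real.cos φ) - Real.cos φ * Real.exp (x * Real.cos φ) := fun φ => by ring
  simp only [h]
  rw [integral_sub (pr1_i0 x) (pr1_i1 x), pr1_m1, ← I0]
  ring

theorem pr1_exp (y : ℕ) (c : Pr y → ℝ) :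
    Real.exp (∑ p : Pr y, ell (c p)) = ∏ p : Pr y, I0 (c p) := by
  rw [Real.exp_sum]
  refine Finset.prod_congr rfl fun p _ => ?_
  rw [ell, Real.exp_log (pr1_pos _)]

theorem pr1_E (y : ℕ) (c φ : Pr y → ℝ) :
    |Real.exp (∑ p : Pr y, c p * Real.cos (φ p))| ≤ Real.exp (∑ p : Pr y, |c p|) := by
  rw [abs_of_pos (Real.exp_pos _)]
  refine Real.exp_le_exp.2 (Finset.sum_le_sum fun p _ => (le_abs_self _).trans ?_)
  rw [abs_mul]
  exact mul_le_of_le_one_right (abs_nonneg _) (Real.abs_cos_le_one _)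

/-- the mixed moments of products of one-variable functions -/
theorem pr1_prod (y : ℕ) (c : Pr y → ℝ) (g h : Pr y → ℝ → ℝ) (p q : Pr y) :
    ∫ φ, g p (φ p) * h q (φ q) * Real.exp (∑ i : Pr y, c i * Real.cos (φ i)) ∂tor y =
      ∏ i : Pr y, ∫ x, (if i = p then g i x else 1) * (if i = q then h i x else 1) *
        Real.exp (c i * Real.cos x) ∂circ := by
  have e := integral_fintype_prod_eq_prod (𝕜 := ℝ) (fun (i : Pr y) (x : ℝ) =>
    (if i = p then g i x else 1) * (if i = q then h i x else 1) * Real.exp (c i * Real.cos x))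
    (μ := fun _ => circ)
  rw [tor, ← e]
  refine integral_congr_ae (Eventually.of_forall fun φ => ?_)
  simp only
  rw [Finset.prod_mul_distrib, Finset.prod_mul_distrib, Finset.prod_ite_eq', Finset.prod_ite_eq',
    if_pos (Finset.mem_univ _), if_pos (Finset.mem_univ _), Real.exp_sum]

/-- the second moments -/
theorem pr1_k (y : ℕ) (c : Pr y → ℝ) (p q : Pr y) :
    ∫ φ, (Real.cos (φ p) - rr (c p)) * (Real.cos (φ q) - rr (c q)) *
      Real.exp (∑ i : Pr y, c i * Real.cos (φ i)) ∂tor y =
      if p = q then vv (c p) * ∏ i : Pr y, I0 (c i) else 0 := by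
  have e := pr1_prod y c (fun i x => Real.cos x - rr (c i)) (fun i x => Real.cos x - rr (c i)) p q
  refine e.trans ?_
  by_cases hpq : p = q
  · subst hpq
    rw [if_pos rfl]
    have h1 : ∀ i : Pr y, ∫ x, (if i = p then Real.cos x - rr (c i) else 1) *
        (if i = p then Real.cos x - rr (c i) else 1) * Real.exp (c i * Real.cos x) ∂circ =
        (if i = p then vv (c i) else 1) * I0 (c i) := by
      intro i
      by_cases hi : i = p
      · simp only [if_pos hi]
        rw [← pr1_c2]
        refine integral_congr_ae (Eventually.of_forall fun x => ?_)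
        simp only
        ring
      · simp only [if_neg hi, one_mul]
        rfl
    rw [Finset.prod_congr rfl fun i _ => h1 i, Finset.prod_mul_distrib, Finset.prod_ite_eq',
      if_pos (Finset.mem_univ _)]
  · rw [if_neg hpq]
    refine Finset.prod_eq_zero (Finset.mem_univ p) ?_
    simp only [if_true, if_neg hpq, mul_one]
    exact pr1_c1 (c p)

theorem st_PR1 : ST_PR1 := by
  intro y b c
  constructor
  · have e1 : ∀ φ : Pr y → ℝ, (∑ p : Pr y, b p * (Real.cos (φ p) - rr (c p))) ^ 2 *
        Real.exp (∑ p : Pr y, c p * Real.cos (φ p)) =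
        ∑ p : Pr y, ∑ q : Pr y, b p * b q * ((Real.cos (φ p) - rr (c p)) *
          (Real.cos (φ q) - rr (c q)) * Real.exp (∑ i : Pr y, c i * Real.cos (φ i))) := by
      intro φ
      rw [sq, Finset.sum_mul_sum, Finset.sum_mul]
      refine Finset.sum_congr rfl fun p _ => ?_
      rw [Finset.sum_mul]
      refine Finset.sum_congr rfl fun q _ => ?_
      ring
    have hi : ∀ p q : Pr y, Integrable (fun φ : Pr y → ℝ => b p * b q *
        ((Real.cos (φ p) - rr (c p)) * (Real.cos (φ q) - rr (c q)) *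
          Real.exp (∑ i : Pr y, c i * Real.cos (φ i)))) (tor y) := by
      intro p q
      refine Integrable.const_mul ?_ _
      refine pr1_intT (by fun_prop)
        ((1 + |rr (c p)|) * (1 + |rr (c q)|) * Real.exp (∑ p : Pr y, |c p|)) fun φ => ?_
      rw [abs_mul, abs_mul]
      have h1 : ∀ i : Pr y, |Real.cos (φ i) - rr (c i)| ≤ 1 + |rr (c i)| := fun i =>
        (abs_sub _ _).trans (add_le_add_left (Real.abs_cos_le_one _) _)
      exact mul_le_mul (mul_le_mul (h1 p) (h1 q) (abs_nonneg _) (by positivity)) (pr1_E y c φ)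
        (abs_nonneg _) (by positivity)
    simp only [e1]
    rw [integral_finsetSum _ fun p _ => integrable_finsetSum _ fun q _ => hi p q]
    rw [pr1_exp, Finset.mul_sum]
    refine Finset.sum_congr rfl fun p _ => ?_
    rw [integral_finsetSum _ fun q _ => hi p q]
    have e2 : ∀ q : Pr y, ∫ φ : Pr y → ℝ, b p * b q * ((Real.cos (φ p) - rr (c p)) *
          (Real.cos (φ q) - rr (c q)) * Real.exp (∑ i : Pr y, c i * Real.cos (φ i))) ∂tor y =
        if p = q then b p * b q * (vv (c p) * ∏ i : Pr y, I0 (c i)) else 0 := by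
      intro q
      rw [integral_const_mul, pr1_k, mul_ite, mul_zero]
    rw [Finset.sum_congr rfl fun q _ => e2 q, Finset.sum_ite_eq, if_pos (Finset.mem_univ _)]
    ring
  · have e1 : ∀ φ : Pr y → ℝ, (∑ p : Pr y, b p * (1 - Real.cos (φ p))) *
        Real.exp (∑ p : Pr y, c p * Real.cos (φ p)) =
        ∑ p : Pr y, b p * ((1 - Real.cos (φ p)) * 1 *
          Real.exp (∑ i : Pr y, c i * Real.cos (φ i))) := by
      intro φ
      rw [Finset.sum_mul]
      refine Finset.sum_congr rfl fun p _ => ?_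
      ring
    have hi : ∀ p : Pr y, Integrable (fun φ : Pr y → ℝ => b p * ((1 - Real.cos (φ p)) * 1 *
          Real.exp (∑ i : Pr y, c i * Real.cos (φ i)))) (tor y) := by
      intro p
      refine Integrable.const_mul ?_ _
      refine pr1_intT (by fun_prop) (2 * 1 * Real.exp (∑ p : Pr y, |c p|)) fun φ => ?_
      rw [abs_mul, abs_mul]
      have h1 : |1 - Real.cos (φ p)| ≤ 2 := by
        rw [abs_le]
        constructor <;> linarith [Real.cos_le_one (φ p), Real.neg_one_le_cos (φ p)]
      exact mul_le_mul (mul_le_mul h1 (abs_one.le) (abs_nonneg _) (by norm_num)) (pr1_E y c φ)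
        (abs_nonneg _) (by norm_num)
    simp only [e1]
    rw [integral_finsetSum _ fun p _ => hi p]
    rw [pr1_exp, Finset.mul_sum]
    refine Finset.sum_congr rfl fun p _ => ?_
    rw [integral_const_mul, pr1_prod y c (fun _ x => 1 - Real.cos x) (fun _ _ => 1) p p]
    have h1 : ∀ i : Pr y, ∫ x, (if i = p then 1 - Real.cos x else 1) *
        (if i = p then (1 : ℝ) else 1) * Real.exp (c i * Real.cos x) ∂circ =
        (if i = p then 1 - rr (c i) else 1) * I0 (c i) := by
      intro i
      by_cases hi : i = p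
      · simp only [if_pos hi, mul_one]
        exact pr1_c3 _
      · simp only [if_neg hi, one_mul]
        rfl
    rw [Finset.prod_congr rfl fun i _ => h1 i, Finset.prod_mul_distrib, Finset.prod_ite_eq',
      if_pos (Finset.mem_univ _)]
    ring

end Pool.Agent.Helper57.QZ
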